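import Mathlib

set_option autoImplicit false

/-! Sowing positions of value `2^(-n)` for every `n`. -/

namespace Pool.Agent.Results.MP_90e647_co.AllNegativePowersOfTwo

/-- A partizan ruleset on a set of positions: the moves of Left and the moves of Right. -/
structure Rules (α : Type) where
  L : α → α → Prop
  R : α → α → Prop

variable {α β : Type}

/-- The negative: the two players exchange their moves. -/
def Rules.neg (A : Rules α) : Rules α := ⟨A.R, A.L⟩

/-- The disjunctive sum: the player to move makes a move in exactly one component. -/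
def Rules.add (A : Rules α) (B : Rules β) : Rules (α × β) where
  L p q := (A.L p.1 q.1 ∧ q.2 = p.2) ∨ (q.1 = p.1 ∧ B.L p.2 q.2)
  R p q := (A.R p.1 q.1 ∧ q.2 = p.2) ∨ (q.1 = p.1 ∧ B.R p.2 q.2)

/-- Left, moving second from `p`, has a winning strategy in normal play: she has a reply to each
move of Right, given by `f`, after which she again wins moving second. -/
inductive Rules.LeftWinsSecond (A : Rules α) : α → Prop
  | intro (p : α) (f : α → α) (h1 : ∀ q, A.R p q → A.L q (f q))
      (h2 : ∀ q, A.R p q → A.LeftWinsSecond (f q)) : A.LeftWinsSecond p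

/-- `p` is a zero position: the player who moves second wins, whoever that is. -/
def Rules.IsZero (A : Rules α) (p : α) : Prop :=
  A.LeftWinsSecond p ∧ A.neg.LeftWinsSecond p

/-- The canonical games `0 = { | }` (`none`) and `2^(-n)` (`some n`), that is `1 = {0 | }` and
`2^(-(n+1)) = {0 | 2^(-n)}`. -/
def halfPow : Rules (Option ℕ) where
  L p q := ∃ n, p = some n ∧ q = none
  R p q := ∃ n, p = some (n + 1) ∧ q = some n

/-- Sowing with the pots `0, …, k-1`, pot `i` holding `a i` seeds (the values of `a` at `k` and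
beyond are never used or changed).  Left empties a nonempty pot `i`, adds one seed to each of the
pots `i+1, …, i + a i`, and the last of them must exist and be nonempty; Right does the same with
the pots `i-1, …, i - a i`. -/
def sowing (k : ℕ) : Rules (ℕ → ℕ) where
  L a b := ∃ i, i < k ∧ 1 ≤ a i ∧ i + a i < k ∧ 1 ≤ a (i + a i) ∧
    b = fun j => if j = i then 0 else if i < j ∧ j ≤ i + a i then a j + 1 else a j
  R a b := ∃ i, i < k ∧ 1 ≤ a i ∧ a i ≤ i ∧ 1 ≤ a (i - a i) ∧
    b = fun j => if j = i then 0 else if i - a i ≤ j ∧ j < i then a j + 1 else a j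

/-- The Sowing position `a` with `k` pots has value `2^(-n)`: the game `a - 2^(-n)` is a win for
the second player. -/
def HasValue (k : ℕ) (a : ℕ → ℕ) (n : ℕ) : Prop :=
  ((sowing k).add halfPow.neg).IsZero (a, some n)

/-- The position with `4n+3` pots holding `4n+2, X, X, 1, 0, X, X, 1, 0, X, X, …, 1, 0, X, X` seeds
with `X = 4n+3` and `n` blocks `1, 0, X, X`. -/
def start (n : ℕ) : ℕ → ℕ := fun j =>
  if j = 0 then 4 * n + 2 else if j % 4 = 3 then 1 else if j % 4 = 0 then 0 else 4 * n + 3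

/-! ### Proof -/

theorem lws_of {A : Rules α} {p : α} (h : ∀ q, A.R p q → ∃ r, A.L q r ∧ A.LeftWinsSecond r) :
    A.LeftWinsSecond p := by
  classical
  have h' : ∀ q, ∃ r, A.R p q → A.L q r ∧ A.LeftWinsSecond r := by
    intro q
    by_cases hq : A.R p q
    · obtain ⟨r, hr⟩ := h q hq
      exact ⟨r, fun _ => hr⟩
    · exact ⟨q, fun h => absurd h hq⟩
  choose f hf using h'
  exact Rules.LeftWinsSecond.intro p f (fun q hq => (hf q hq).1) (fun q hq => (hf q hq).2)

/-- effect of a move of Left -/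
def lmv (a : ℕ → ℕ) (i : ℕ) : ℕ → ℕ :=
  fun j => if j = i then 0 else if i < j ∧ j ≤ i + a i then a j + 1 else a j

/-- effect of a move of Right -/
def rmv (a : ℕ → ℕ) (i : ℕ) : ℕ → ℕ :=
  fun j => if j = i then 0 else if i - a i ≤ j ∧ j < i then a j + 1 else a j

/-- the walls are immobile -/
def Walls (n : ℕ) (a : ℕ → ℕ) : Prop :=
  ∀ j, j < 4 * n + 3 → (j % 4 = 1 ∨ j % 4 = 2) → 4 * n + 3 ≤ a j

/-- block states which are good for Left moving second -/
def PP (x y : ℕ) : Prop := (x = 0 ∧ y = 0) ∨ (x = 0 ∧ y = 1) ∨ (x = 1 ∧ y = 1) ∨ (x = 2 ∧ y = 1)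

/-- block states which are good for Right moving second -/
def NP (x y : ℕ) : Prop := (x = 0 ∧ y = 0) ∨ (x = 1 ∧ y = 0) ∨ (x = 1 ∧ y = 1) ∨ (x = 2 ∧ y = 1)

/-- number of nonempty pots among two -/
def wt (x y : ℕ) : ℕ := (if x = 0 then 0 else 1) + (if y = 0 then 0 else 1)

/-- total weight -/
def tw (n : ℕ) (a : ℕ → ℕ) : ℕ := ∑ r ∈ Finset.range n, wt (a (4 * r + 3)) (a (4 * r + 4))

theorem tw_lt {n : ℕ} {a c : ℕ → ℕ} {r : ℕ} (hr : r < n)
    (h1 : ∀ s, s ≠ r → c (4 * s + 3) = a (4 * s + 3) ∧ c (4 * s + 4) = a (4 * s + 4))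
    (h2 : wt (c (4 * r + 3)) (c (4 * r + 4)) < wt (a (4 * r + 3)) (a (4 * r + 4))) :
    tw n c < tw n a := by
  unfold tw
  apply Finset.sum_lt_sum
  · intro s _
    by_cases hs : s = r
    · subst hs; exact h2.le
    · rw [(h1 s hs).1, (h1 s hs).2]
  · exact ⟨r, Finset.mem_range.2 hr, h2⟩

/-- the situation after the big move of Left -/
structure Post (S : ℕ → ℕ → Prop) (n : ℕ) (a : ℕ → ℕ) : Prop where
  zero : a 0 = 0
  walls : Walls n a
  blocks : ∀ r, r < n → S (a (4 * r + 3)) (a (4 * r + 4))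

/-- a local change of the position in block `r` -/
structure Local (n r : ℕ) (a c : ℕ → ℕ) : Prop where
  zero : c 0 = a 0
  walls : ∀ j, (j % 4 = 1 ∨ j % 4 = 2) → a j ≤ c j
  other : ∀ s, s ≠ r → c (4 * s + 3) = a (4 * s + 3) ∧ c (4 * s + 4) = a (4 * s + 4)

theorem Post.step {S : ℕ → ℕ → Prop} {n r : ℕ} {a c : ℕ → ℕ} (h : Post S n a)
    (hl : Local n r a c) (hS : S (c (4 * r + 3)) (c (4 * r + 4))) : Post S n c := by
  refine ⟨by rw [hl.zero, h.zero], ?_, ?_⟩
  · intro j hj hj4
    exact (h.walls j hj hj4).trans (hl.walls j hj4)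
  · intro s hs
    by_cases hsr : s = r
    · subst hsr; exact hS
    · rw [(hl.other s hsr).1, (hl.other s hsr).2]
      exact h.blocks s hs

theorem local_LR {n r : ℕ} {a : ℕ → ℕ} {i j : ℕ} (hi : i = 4 * r + 3 ∨ i = 4 * r + 4)
    (hj : j = 4 * r + 3 ∨ j = 4 * r + 4) (h1 : i + a i ≤ 4 * r + 6)
    (h2 : lmv a i j ≤ 3) (h3 : 4 * r + 1 ≤ j - lmv a i j) : Local n r a (rmv (lmv a i) j) := by
  have hle : ∀ x, x % 4 = 1 ∨ x % 4 = 2 → a x ≤ lmv a i x := by
    intro x hx
    unfold lmv
    split_ifs <;> omega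
  have hle2 : ∀ (b : ℕ → ℕ) x, x % 4 = 1 ∨ x % 4 = 2 → b x ≤ rmv b j x := by
    intro b x hx
    unfold rmv
    split_ifs <;> omega
  have hout : ∀ x, x < 4 * r + 1 ∨ 4 * r + 6 < x → rmv (lmv a i) j x = a x := by
    intro x hx
    have e1 : lmv a i x = a x := by
      unfold lmv
      split_ifs <;> omega
    have e2 : rmv (lmv a i) j x = lmv a i x := by
      unfold rmv
      split_ifs <;> omega
    rw [e2, e1]
  refine ⟨hout 0 (by omega), fun x hx => (hle x hx).trans (hle2 _ x hx), fun s hs => ?_⟩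
  exact ⟨hout _ (by omega), hout _ (by omega)⟩

theorem local_RL {n r : ℕ} {a : ℕ → ℕ} {i j : ℕ} (hi : i = 4 * r + 3 ∨ i = 4 * r + 4)
    (hj : j = 4 * r + 3 ∨ j = 4 * r + 4) (h1 : 4 * r + 1 ≤ i - a i)
    (h2 : j + rmv a i j ≤ 4 * r + 6) : Local n r a (lmv (rmv a i) j) := by
  have hle : ∀ x, x % 4 = 1 ∨ x % 4 = 2 → a x ≤ rmv a i x := by
    intro x hx
    unfold rmv
    split_ifs <;> omega
  have hle2 : ∀ (b : ℕ → ℕ) x, x % 4 = 1 ∨ x % 4 = 2 → b x ≤ lmv b j x := by
    intro b x hx
    unfold lmv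
    split_ifs <;> omega
  have hout : ∀ x, x < 4 * r + 1 ∨ 4 * r + 6 < x → lmv (rmv a i) j x = a x := by
    intro x hx
    have e1 : rmv a i x = a x := by
      unfold rmv
      split_ifs <;> omega
    have e2 : lmv (rmv a i) j x = rmv a i x := by
      unfold lmv
      split_ifs <;> omega
    rw [e2, e1]
  refine ⟨hout 0 (by omega), fun x hx => (hle x hx).trans (hle2 _ x hx), fun s hs => ?_⟩
  exact ⟨hout _ (by omega), hout _ (by omega)⟩

/-- a pot which can move is in a block -/
theorem in_block {n : ℕ} {a : ℕ → ℕ} (h0 : a 0 = 0) (hw : Walls n a) {i : ℕ} (hi : i < 4 * n + 3)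
    (h1 : 1 ≤ a i) (h2 : i + a i < 4 * n + 3 ∨ a i ≤ i) :
    ∃ r, r < n ∧ (i = 4 * r + 3 ∨ i = 4 * r + 4) := by
  have hi0 : i ≠ 0 := by rintro rfl; omega
  have h4 : ¬ (i % 4 = 1 ∨ i % 4 = 2) := by
    intro h
    have := hw i hi h
    omega
  refine ⟨(i - 3) / 4, ?_, ?_⟩ <;> omega

theorem post_left {n : ℕ} : ∀ (N : ℕ) (a : ℕ → ℕ), tw n a < N → Post PP n a →
    ((sowing (4 * n + 3)).add halfPow.neg).LeftWinsSecond (a, none) := by
  intro N
  induction N with
  | zero => intro a h; omega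
  | succ N ih =>
    intro a hN hP
    apply lws_of
    rintro ⟨b, x⟩ hb
    rcases hb with ⟨hb, hx⟩ | ⟨hb, hx⟩
    swap
    · obtain ⟨m, hm, -⟩ := hx
      exact absurd hm (by simp)
    obtain ⟨i, hi, h1, h2, h3, hbe⟩ := hb
    simp only at hbe hx h1 h2 h3
    subst hx
    have hbe' : b = rmv a i := hbe
    subst hbe'
    obtain ⟨r, hr, hri⟩ := in_block hP.zero hP.walls hi h1 (Or.inr h2)
    have w1 := hP.walls (4 * r + 1) (by omega) (by omega)
    have w2 := hP.walls (4 * r + 2) (by omega) (by omega)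
    have w5 := hP.walls (4 * r + 5) (by omega) (by omega)
    have w6 := hP.walls (4 * r + 6) (by omega) (by omega)
    have key : ∀ j, (j = 4 * r + 3 ∨ j = 4 * r + 4) → 4 * r + 1 ≤ i - a i → 1 ≤ rmv a i j →
        j + rmv a i j ≤ 4 * r + 6 → 1 ≤ rmv a i (j + rmv a i j) →
        PP (lmv (rmv a i) j (4 * r + 3)) (lmv (rmv a i) j (4 * r + 4)) →
        wt (lmv (rmv a i) j (4 * r + 3)) (lmv (rmv a i) j (4 * r + 4)) <
          wt (a (4 * r + 3)) (a (4 * r + 4)) →
        ∃ q, ((sowing (4 * n + 3)).add halfPow.neg).L (rmv a i, none) q ∧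
          ((sowing (4 * n + 3)).add halfPow.neg).LeftWinsSecond q := by
      intro j hj k1 k2 k3 k4 k5 k6
      have hl := local_RL (n := n) hri hj k1 k3
      refine ⟨(lmv (rmv a i) j, none), Or.inl ⟨⟨j, by omega, k2,
        show j + rmv a i j < 4 * n + 3 by omega, k4, rfl⟩, rfl⟩, ?_⟩
      refine ih _ ?_ (hP.step hl k5)
      have := tw_lt hr hl.other k6
      omega
    rcases hri with rfl | rfl
    · rcases hP.blocks r hr with ⟨hx, hy⟩ | ⟨hx, hy⟩ | ⟨hx, hy⟩ | ⟨hx, hy⟩
      · omega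
      · omega
      · have e4 : rmv a (4 * r + 3) (4 * r + 4) = 1 := by
          unfold rmv; rw [if_neg (by omega), if_neg (by omega), hy]
        have e5 : rmv a (4 * r + 3) (4 * r + 5) = a (4 * r + 5) := by
          unfold rmv; rw [if_neg (by omega), if_neg (by omega)]
        have e3 : rmv a (4 * r + 3) (4 * r + 3) = 0 := by
          unfold rmv; rw [if_pos rfl]
        have f3 : lmv (rmv a (4 * r + 3)) (4 * r + 4) (4 * r + 3) = 0 := by
          unfold lmv; rw [if_neg (by omega), if_neg (by omega), e3]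
        have f4 : lmv (rmv a (4 * r + 3)) (4 * r + 4) (4 * r + 4) = 0 := by
          unfold lmv; rw [if_pos rfl]
        refine key (4 * r + 4) (Or.inr rfl) (by omega) (by omega) (by omega) ?_ ?_ ?_
        · rw [e4, show 4 * r + 4 + 1 = 4 * r + 5 by omega, e5]; omega
        · rw [f3, f4]; exact Or.inl ⟨rfl, rfl⟩
        · rw [f3, f4, hx, hy]; decide
      · have e4 : rmv a (4 * r + 3) (4 * r + 4) = 1 := by
          unfold rmv; rw [if_neg (by omega), if_neg (by omega), hy]
        have e5 : rmv a (4 * r + 3) (4 * r + 5) = a (4 * r + 5) := by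
          unfold rmv; rw [if_neg (by omega), if_neg (by omega)]
        have e3 : rmv a (4 * r + 3) (4 * r + 3) = 0 := by
          unfold rmv; rw [if_pos rfl]
        have f3 : lmv (rmv a (4 * r + 3)) (4 * r + 4) (4 * r + 3) = 0 := by
          unfold lmv; rw [if_neg (by omega), if_neg (by omega), e3]
        have f4 : lmv (rmv a (4 * r + 3)) (4 * r + 4) (4 * r + 4) = 0 := by
          unfold lmv; rw [if_pos rfl]
        refine key (4 * r + 4) (Or.inr rfl) (by omega) (by omega) (by omega) ?_ ?_ ?_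
        · rw [e4, show 4 * r + 4 + 1 = 4 * r + 5 by omega, e5]; omega
        · rw [f3, f4]; exact Or.inl ⟨rfl, rfl⟩
        · rw [f3, f4, hx, hy]; decide
    · rcases hP.blocks r hr with ⟨hx, hy⟩ | ⟨hx, hy⟩ | ⟨hx, hy⟩ | ⟨hx, hy⟩
      · omega
      · exfalso
        rw [hy, show 4 * r + 4 - 1 = 4 * r + 3 by omega, hx] at h3
        omega
      · have e4 : rmv a (4 * r + 4) (4 * r + 4) = 0 := by
          unfold rmv; rw [if_pos rfl]
        have e5 : rmv a (4 * r + 4) (4 * r + 5) = a (4 * r + 5) := by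
          unfold rmv; rw [if_neg (by omega), if_neg (by omega)]
        have e3 : rmv a (4 * r + 4) (4 * r + 3) = 2 := by
          unfold rmv; rw [if_neg (by omega), if_pos (by omega), hx]
        have f3 : lmv (rmv a (4 * r + 4)) (4 * r + 3) (4 * r + 3) = 0 := by
          unfold lmv; rw [if_pos rfl]
        have f4 : lmv (rmv a (4 * r + 4)) (4 * r + 3) (4 * r + 4) = 1 := by
          unfold lmv; rw [if_neg (by omega), if_pos (by omega), e4]
        refine key (4 * r + 3) (Or.inl rfl) (by omega) (by omega) (by omega) ?_ ?_ ?_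
        · rw [e3, show 4 * r + 3 + 2 = 4 * r + 5 by omega, e5]; omega
        · rw [f3, f4]; exact Or.inr (Or.inl ⟨rfl, rfl⟩)
        · rw [f3, f4, hx, hy]; decide
      · have e4 : rmv a (4 * r + 4) (4 * r + 4) = 0 := by
          unfold rmv; rw [if_pos rfl]
        have e6 : rmv a (4 * r + 4) (4 * r + 6) = a (4 * r + 6) := by
          unfold rmv; rw [if_neg (by omega), if_neg (by omega)]
        have e3 : rmv a (4 * r + 4) (4 * r + 3) = 3 := by
          unfold rmv; rw [if_neg (by omega), if_pos (by omega), hx]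
        have f3 : lmv (rmv a (4 * r + 4)) (4 * r + 3) (4 * r + 3) = 0 := by
          unfold lmv; rw [if_pos rfl]
        have f4 : lmv (rmv a (4 * r + 4)) (4 * r + 3) (4 * r + 4) = 1 := by
          unfold lmv; rw [if_neg (by omega), if_pos (by omega), e4]
        refine key (4 * r + 3) (Or.inl rfl) (by omega) (by omega) (by omega) ?_ ?_ ?_
        · rw [e3, show 4 * r + 3 + 3 = 4 * r + 6 by omega, e6]; omega
        · rw [f3, f4]; exact Or.inr (Or.inl ⟨rfl, rfl⟩)
        · rw [f3, f4, hx, hy]; decide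

theorem post_right {n : ℕ} : ∀ (N : ℕ) (a : ℕ → ℕ), tw n a < N → Post NP n a →
    ((sowing (4 * n + 3)).add halfPow.neg).neg.LeftWinsSecond (a, none) := by
  intro N
  induction N with
  | zero => intro a h; omega
  | succ N ih =>
    intro a hN hP
    apply lws_of
    rintro ⟨b, x⟩ hb
    rcases hb with ⟨hb, hx⟩ | ⟨hb, hx⟩
    swap
    · obtain ⟨m, hm, -⟩ := hx
      exact absurd hm (by simp)
    obtain ⟨i, hi, h1, h2, h3, hbe⟩ := hb
    simp only at hbe hx h1 h2 h3
    subst hx
    have hbe' : b = lmv a i := hbe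
    subst hbe'
    obtain ⟨r, hr, hri⟩ := in_block hP.zero hP.walls hi h1 (Or.inl h2)
    have w1 := hP.walls (4 * r + 1) (by omega) (by omega)
    have w2 := hP.walls (4 * r + 2) (by omega) (by omega)
    have w5 := hP.walls (4 * r + 5) (by omega) (by omega)
    have w6 := hP.walls (4 * r + 6) (by omega) (by omega)
    have key : ∀ j, (j = 4 * r + 3 ∨ j = 4 * r + 4) → i + a i ≤ 4 * r + 6 → 1 ≤ lmv a i j →
        lmv a i j ≤ 3 → 4 * r + 1 ≤ j - lmv a i j → 1 ≤ lmv a i (j - lmv a i j) →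
        NP (rmv (lmv a i) j (4 * r + 3)) (rmv (lmv a i) j (4 * r + 4)) →
        wt (rmv (lmv a i) j (4 * r + 3)) (rmv (lmv a i) j (4 * r + 4)) <
          wt (a (4 * r + 3)) (a (4 * r + 4)) →
        ∃ q, ((sowing (4 * n + 3)).add halfPow.neg).neg.L (lmv a i, none) q ∧
          ((sowing (4 * n + 3)).add halfPow.neg).neg.LeftWinsSecond q := by
      intro j hj k1 k2 k2' k3 k4 k5 k6
      have hl := local_LR (n := n) hri hj k1 k2' k3
      refine ⟨(rmv (lmv a i) j, none), Or.inl ⟨⟨j, by omega, k2,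
        show lmv a i j ≤ j by omega, k4, rfl⟩, rfl⟩, ?_⟩
      refine ih _ ?_ (hP.step hl k5)
      have := tw_lt hr hl.other k6
      omega
    rcases hri with rfl | rfl
    · rcases hP.blocks r hr with ⟨hx, hy⟩ | ⟨hx, hy⟩ | ⟨hx, hy⟩ | ⟨hx, hy⟩
      · omega
      · exfalso
        rw [hx, show 4 * r + 3 + 1 = 4 * r + 4 by omega, hy] at h3
        omega
      · have e4 : lmv a (4 * r + 3) (4 * r + 4) = 2 := by
          unfold lmv; rw [if_neg (by omega), if_pos (by omega), hy]
        have e2 : lmv a (4 * r + 3) (4 * r + 2) = a (4 * r + 2) := by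
          unfold lmv; rw [if_neg (by omega), if_neg (by omega)]
        have e3 : lmv a (4 * r + 3) (4 * r + 3) = 0 := by
          unfold lmv; rw [if_pos rfl]
        have f3 : rmv (lmv a (4 * r + 3)) (4 * r + 4) (4 * r + 3) = 1 := by
          unfold rmv; rw [if_neg (by omega), if_pos (by omega), e3]
        have f4 : rmv (lmv a (4 * r + 3)) (4 * r + 4) (4 * r + 4) = 0 := by
          unfold rmv; rw [if_pos rfl]
        refine key (4 * r + 4) (Or.inr rfl) (by omega) (by omega) (by omega) (by omega) ?_ ?_ ?_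
        · rw [e4, show 4 * r + 4 - 2 = 4 * r + 2 by omega, e2]; omega
        · rw [f3, f4]; exact Or.inr (Or.inl ⟨rfl, rfl⟩)
        · rw [f3, f4, hx, hy]; decide
      · have e4 : lmv a (4 * r + 3) (4 * r + 4) = 2 := by
          unfold lmv; rw [if_neg (by omega), if_pos (by omega), hy]
        have e2 : lmv a (4 * r + 3) (4 * r + 2) = a (4 * r + 2) := by
          unfold lmv; rw [if_neg (by omega), if_neg (by omega)]
        have e3 : lmv a (4 * r + 3) (4 * r + 3) = 0 := by
          unfold lmv; rw [if_pos rfl]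
        have f3 : rmv (lmv a (4 * r + 3)) (4 * r + 4) (4 * r + 3) = 1 := by
          unfold rmv; rw [if_neg (by omega), if_pos (by omega), e3]
        have f4 : rmv (lmv a (4 * r + 3)) (4 * r + 4) (4 * r + 4) = 0 := by
          unfold rmv; rw [if_pos rfl]
        refine key (4 * r + 4) (Or.inr rfl) (by omega) (by omega) (by omega) (by omega) ?_ ?_ ?_
        · rw [e4, show 4 * r + 4 - 2 = 4 * r + 2 by omega, e2]; omega
        · rw [f3, f4]; exact Or.inr (Or.inl ⟨rfl, rfl⟩)
        · rw [f3, f4, hx, hy]; decide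
    · rcases hP.blocks r hr with ⟨hx, hy⟩ | ⟨hx, hy⟩ | ⟨hx, hy⟩ | ⟨hx, hy⟩
      · omega
      · omega
      · have e4 : lmv a (4 * r + 4) (4 * r + 4) = 0 := by
          unfold lmv; rw [if_pos rfl]
        have e2 : lmv a (4 * r + 4) (4 * r + 2) = a (4 * r + 2) := by
          unfold lmv; rw [if_neg (by omega), if_neg (by omega)]
        have e3 : lmv a (4 * r + 4) (4 * r + 3) = 1 := by
          unfold lmv; rw [if_neg (by omega), if_neg (by omega), hx]
        have f3 : rmv (lmv a (4 * r + 4)) (4 * r + 3) (4 * r + 3) = 0 := by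
          unfold rmv; rw [if_pos rfl]
        have f4 : rmv (lmv a (4 * r + 4)) (4 * r + 3) (4 * r + 4) = 0 := by
          unfold rmv; rw [if_neg (by omega), if_neg (by omega), e4]
        refine key (4 * r + 3) (Or.inl rfl) (by omega) (by omega) (by omega) (by omega) ?_ ?_ ?_
        · rw [e3, show 4 * r + 3 - 1 = 4 * r + 2 by omega, e2]; omega
        · rw [f3, f4]; exact Or.inl ⟨rfl, rfl⟩
        · rw [f3, f4, hx, hy]; decide
      · have e4 : lmv a (4 * r + 4) (4 * r + 4) = 0 := by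
          unfold lmv; rw [if_pos rfl]
        have e1 : lmv a (4 * r + 4) (4 * r + 1) = a (4 * r + 1) := by
          unfold lmv; rw [if_neg (by omega), if_neg (by omega)]
        have e3 : lmv a (4 * r + 4) (4 * r + 3) = 2 := by
          unfold lmv; rw [if_neg (by omega), if_neg (by omega), hx]
        have f3 : rmv (lmv a (4 * r + 4)) (4 * r + 3) (4 * r + 3) = 0 := by
          unfold rmv; rw [if_pos rfl]
        have f4 : rmv (lmv a (4 * r + 4)) (4 * r + 3) (4 * r + 4) = 0 := by
          unfold rmv; rw [if_neg (by omega), if_neg (by omega), e4]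
        refine key (4 * r + 3) (Or.inl rfl) (by omega) (by omega) (by omega) (by omega) ?_ ?_ ?_
        · rw [e3, show 4 * r + 3 - 2 = 4 * r + 1 by omega, e1]; omega
        · rw [f3, f4]; exact Or.inl ⟨rfl, rfl⟩
        · rw [f3, f4, hx, hy]; decide

/-- the situation before the big move of Left; `c` blocks are still `1, 0`, the others are `0, 0` -/
structure Pre (n : ℕ) (a : ℕ → ℕ) (c : ℕ) : Prop where
  zero : a 0 = 4 * n + 2
  walls : Walls n a
  fst : ∀ r, r < n → a (4 * r + 3) ≤ 1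
  snd : ∀ r, r < n → a (4 * r + 4) = 0
  count : ∑ r ∈ Finset.range n, a (4 * r + 3) = c

/-- Right empties a block -/
theorem Pre.right {n : ℕ} {a : ℕ → ℕ} {c : ℕ} (h : Pre n a c) {r : ℕ} (hr : r < n)
    (h1 : a (4 * r + 3) = 1) : ∃ c', c = c' + 1 ∧ Pre n (rmv a (4 * r + 3)) c' := by
  have hv : ∀ x, x ≠ 4 * r + 3 → x ≠ 4 * r + 2 → rmv a (4 * r + 3) x = a x := by
    intro x hx hx2
    unfold rmv
    rw [if_neg hx, if_neg (by omega)]
  have h3 : rmv a (4 * r + 3) (4 * r + 3) = 0 := by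
    unfold rmv; rw [if_pos rfl]
  have hs : ∑ s ∈ Finset.range n, a (4 * s + 3)
      = ∑ s ∈ Finset.range n, rmv a (4 * r + 3) (4 * s + 3) + 1 := by
    rw [← Finset.add_sum_erase _ _ (Finset.mem_range.2 hr),
      ← Finset.add_sum_erase (Finset.range n) (fun s => rmv a (4 * r + 3) (4 * s + 3))
        (Finset.mem_range.2 hr)]
    have : ∑ s ∈ (Finset.range n).erase r, rmv a (4 * r + 3) (4 * s + 3)
        = ∑ s ∈ (Finset.range n).erase r, a (4 * s + 3) := by
      apply Finset.sum_congr rfl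
      intro s hs
      have := Finset.ne_of_mem_erase hs
      exact hv _ (by omega) (by omega)
    rw [this]
    simp only [h3, h1]
    omega
  refine ⟨∑ s ∈ Finset.range n, rmv a (4 * r + 3) (4 * s + 3), by rw [← hs, h.count], ?_⟩
  refine ⟨by rw [hv 0 (by omega) (by omega), h.zero], ?_, ?_, ?_, rfl⟩
  · intro j hj hj4
    refine (h.walls j hj hj4).trans ?_
    unfold rmv
    split_ifs <;> omega
  · intro s hs
    by_cases hsr : s = r
    · subst hsr; rw [h3]; omega
    · rw [hv _ (by omega) (by omega)]; exact h.fst s hs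
  · intro s hs
    rw [hv _ (by omega) (by omega)]; exact h.snd s hs

/-- the big move of Left -/
theorem Pre.big {n : ℕ} {a : ℕ → ℕ} {c : ℕ} (h : Pre n a c) :
    lmv a 0 0 = 0 ∧ Walls n (lmv a 0) ∧
      ∀ r, r < n → (lmv a 0 (4 * r + 3) = 1 ∨ lmv a 0 (4 * r + 3) = 2) ∧
        lmv a 0 (4 * r + 4) = 1 := by
  have hv : ∀ x, x ≠ 0 → x < 4 * n + 3 → lmv a 0 x = a x + 1 := by
    intro x hx hx2
    unfold lmv
    rw [if_neg hx, if_pos (by rw [h.zero]; omega)]
  refine ⟨by unfold lmv; rw [if_pos rfl], ?_, ?_⟩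
  · intro j hj hj4
    rw [hv j (by omega) hj]
    have := h.walls j hj hj4
    omega
  · intro r hr
    rw [hv _ (by omega) (by omega), hv _ (by omega) (by omega), h.snd r hr]
    have := h.fst r hr
    omega

theorem Pre.leg {n : ℕ} {a : ℕ → ℕ} {c : ℕ} (h : Pre n a c) :
    (sowing (4 * n + 3)).L a (lmv a 0) := by
  refine ⟨0, by omega, by rw [h.zero]; omega, by rw [h.zero]; omega, ?_, rfl⟩
  rw [h.zero]
  have := h.walls (0 + (4 * n + 2)) (by omega) (by omega)
  omega

/-- Right's moves in the first phase -/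
theorem Pre.right_move {n : ℕ} {a b : ℕ → ℕ} {c : ℕ} (h : Pre n a c)
    (hb : (sowing (4 * n + 3)).R a b) : ∃ r, r < n ∧ a (4 * r + 3) = 1 ∧ b = rmv a (4 * r + 3) := by
  obtain ⟨i, hi, h1, h2, -, hbe⟩ := hb
  have hbe' : b = rmv a i := hbe
  have hi0 : i ≠ 0 := by
    rintro rfl
    have := h.zero
    omega
  have h4 : ¬ (i % 4 = 1 ∨ i % 4 = 2) := by
    intro h'
    have := h.walls i hi h'
    omega
  have h5 : i % 4 ≠ 0 := by
    intro h'
    have := h.snd ((i - 4) / 4) (by omega)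
    rw [show 4 * ((i - 4) / 4) + 4 = i by omega] at this
    omega
  have h6 : 4 * ((i - 3) / 4) + 3 = i := by omega
  have h7 := h.fst ((i - 3) / 4) (by omega)
  rw [h6] at h7
  refine ⟨(i - 3) / 4, by omega, ?_, ?_⟩
  · rw [h6]; omega
  · rw [h6]; exact hbe'

/-- Left's moves in the first phase -/
theorem Pre.left_move {n : ℕ} {a b : ℕ → ℕ} {c : ℕ} (h : Pre n a c)
    (hb : (sowing (4 * n + 3)).L a b) : b = lmv a 0 := by
  obtain ⟨i, hi, h1, h2, h3, hbe⟩ := hb
  have hbe' : b = lmv a i := hbe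
  by_cases hi0 : i = 0
  · subst hi0; exact hbe'
  exfalso
  have h4 : ¬ (i % 4 = 1 ∨ i % 4 = 2) := by
    intro h'
    have := h.walls i hi h'
    omega
  have h5 : i % 4 ≠ 0 := by
    intro h'
    have := h.snd ((i - 4) / 4) (by omega)
    rw [show 4 * ((i - 4) / 4) + 4 = i by omega] at this
    omega
  have h6 : 4 * ((i - 3) / 4) + 3 = i := by omega
  have h7 := h.fst ((i - 3) / 4) (by omega)
  have h8 := h.snd ((i - 3) / 4) (by omega)
  rw [h6] at h7
  have h9 : a i = 1 := by omega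
  rw [h9, show i + 1 = 4 * ((i - 3) / 4) + 4 by omega] at h3
  omega

theorem Pre.right_legal {n : ℕ} {a : ℕ → ℕ} {c : ℕ} (h : Pre n a c) {r : ℕ} (hr : r < n)
    (h1 : a (4 * r + 3) = 1) : (sowing (4 * n + 3)).R a (rmv a (4 * r + 3)) := by
  refine ⟨4 * r + 3, by omega, by omega, by omega, ?_, rfl⟩
  rw [h1, show 4 * r + 3 - 1 = 4 * r + 2 by omega]
  have := h.walls (4 * r + 2) (by omega) (by omega)
  omega

theorem pre_left {n : ℕ} : ∀ (m : ℕ) (a : ℕ → ℕ) (c : ℕ), Pre n a c → c ≤ m →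
    ((sowing (4 * n + 3)).add halfPow.neg).LeftWinsSecond (a, some m) := by
  intro m
  induction m with
  | zero =>
    intro a c hP hc
    apply lws_of
    rintro ⟨b, x⟩ hb
    rcases hb with ⟨hb, hx⟩ | ⟨hb, hx⟩
    · exfalso
      obtain ⟨r, hr, h1, -⟩ := hP.right_move hb
      obtain ⟨c', hc', -⟩ := hP.right hr h1
      omega
    · obtain ⟨m', -, hm'⟩ := hx
      simp only at hb hm'
      subst hb hm'
      obtain ⟨b1, b2, b3⟩ := hP.big
      refine ⟨(lmv b 0, none), Or.inl ⟨hP.leg, rfl⟩, post_left _ _ (Nat.lt_succ_self _) ?_⟩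
      refine ⟨b1, b2, fun r hr => ?_⟩
      obtain ⟨h1 | h1, h2⟩ := b3 r hr
      · exact Or.inr (Or.inr (Or.inl ⟨h1, h2⟩))
      · exact Or.inr (Or.inr (Or.inr ⟨h1, h2⟩))
  | succ m ih =>
    intro a c hP hc
    apply lws_of
    rintro ⟨b, x⟩ hb
    rcases hb with ⟨hb, hx⟩ | ⟨hb, hx⟩
    · obtain ⟨r, hr, h1, hb⟩ := hP.right_move hb
      obtain ⟨c', hc', hP'⟩ := hP.right hr h1
      simp only at hb hx
      subst hb hx
      exact ⟨(rmv a (4 * r + 3), some m), Or.inr ⟨rfl, m, rfl, rfl⟩, ih _ _ hP' (by omega)⟩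
    · obtain ⟨m', -, hm'⟩ := hx
      simp only at hb hm'
      subst hb hm'
      obtain ⟨b1, b2, b3⟩ := hP.big
      refine ⟨(lmv b 0, none), Or.inl ⟨hP.leg, rfl⟩, post_left _ _ (Nat.lt_succ_self _) ?_⟩
      refine ⟨b1, b2, fun r hr => ?_⟩
      obtain ⟨h1 | h1, h2⟩ := b3 r hr
      · exact Or.inr (Or.inr (Or.inl ⟨h1, h2⟩))
      · exact Or.inr (Or.inr (Or.inr ⟨h1, h2⟩))

theorem pre_right {n : ℕ} : ∀ (m : ℕ) (a : ℕ → ℕ) (c : ℕ), Pre n a c → m ≤ c →
    ((sowing (4 * n + 3)).add halfPow.neg).neg.LeftWinsSecond (a, some m) := by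
  intro m
  induction m with
  | zero =>
    intro a c hP hc
    apply lws_of
    rintro ⟨b, x⟩ hb
    rcases hb with ⟨hb, hx⟩ | ⟨hb, hx⟩
    · have hb' := hP.left_move hb
      simp only at hb' hx
      subst hb' hx
      obtain ⟨b1, b2, b3⟩ := hP.big
      refine ⟨(lmv a 0, none), Or.inr ⟨rfl, 0, rfl, rfl⟩, post_right _ _ (Nat.lt_succ_self _) ?_⟩
      refine ⟨b1, b2, fun r hr => ?_⟩
      obtain ⟨h1 | h1, h2⟩ := b3 r hr
      · exact Or.inr (Or.inr (Or.inl ⟨h1, h2⟩))
      · exact Or.inr (Or.inr (Or.inr ⟨h1, h2⟩))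
    · obtain ⟨m', hm, -⟩ := hx
      simp at hm
  | succ m ih =>
    intro a c hP hc
    apply lws_of
    rintro ⟨b, x⟩ hb
    rcases hb with ⟨hb, hx⟩ | ⟨hb, hx⟩
    · have hb' := hP.left_move hb
      simp only at hb' hx
      subst hb' hx
      obtain ⟨b1, b2, b3⟩ := hP.big
      refine ⟨(lmv a 0, none), Or.inr ⟨rfl, m + 1, rfl, rfl⟩,
        post_right _ _ (Nat.lt_succ_self _) ?_⟩
      refine ⟨b1, b2, fun r hr => ?_⟩
      obtain ⟨h1 | h1, h2⟩ := b3 r hr
      · exact Or.inr (Or.inr (Or.inl ⟨h1, h2⟩))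
      · exact Or.inr (Or.inr (Or.inr ⟨h1, h2⟩))
    · obtain ⟨m', hm, hm'⟩ := hx
      simp only [Option.some.injEq, add_left_inj] at hm
      simp only at hb hm'
      subst hm hb hm'
      have : ∃ r, r < n ∧ b (4 * r + 3) = 1 := by
        by_contra hcon
        push Not at hcon
        have h0 : ∑ r ∈ Finset.range n, b (4 * r + 3) = 0 := by
          apply Finset.sum_eq_zero
          intro r hr
          have hr' := Finset.mem_range.1 hr
          have := hP.fst r hr'
          have := hcon r hr'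
          omega
        have := hP.count
        omega
      obtain ⟨r, hr, h1⟩ := this
      obtain ⟨c', hc', hP'⟩ := hP.right hr h1
      exact ⟨(rmv b (4 * r + 3), some m), Or.inl ⟨hP.right_legal hr h1, rfl⟩,
        ih _ _ hP' (by omega)⟩

/-- **The Sowing position with the `4n+3` pots `4n+2, X, X, 1, 0, X, X, 1, 0, X, X, …` with
`X = 4n+3` and `n` blocks `1, 0, X, X` has value `2^(-n)`, for every `n`.** -/
theorem result (n : ℕ) : HasValue (4 * n + 3) (start n) n := by
  have hP : Pre n (start n) n := by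
    refine ⟨by simp [start], ?_, ?_, ?_, ?_⟩
    · intro j hj hj4
      unfold start
      rw [if_neg (by omega), if_neg (by omega), if_neg (by omega)]
    · intro r hr
      unfold start
      rw [if_neg (by omega), if_pos (by omega)]
    · intro r hr
      unfold start
      rw [if_neg (by omega), if_neg (by omega), if_pos (by omega)]
    · have : ∀ r ∈ Finset.range n, start n (4 * r + 3) = 1 := by
        intro r hr
        unfold start
        rw [if_neg (by omega), if_pos (by omega)]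
      rw [Finset.sum_congr rfl this]
      simp
  exact ⟨pre_left n _ n hP le_rfl, pre_right n _ n hP le_rfl⟩

end Pool.Agent.Results.MP_90e647_co.AllNegativePowersOfTwo
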